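import Pool.Agent.Y713.SE.Pull

/-!
# The Selmer group conjecture at `ℓ` for the Jacobians of `y ^ ℓ = h(x) (x - g(t))`

The definitions of the Jacobian `J`, of its Galois cohomology over `K` and of the groups of locally
trivial classes are in `Pool.Agent.Y713.SE.Stm`.
-/

set_option autoImplicit false
set_option linter.all false

open Polynomial

namespace Pool.Agent.Results.MP_1bdb59_nt.SuperellipticPencil

/-- The polynomial `h(x) (x - g(t))` in `x` over `k(t)`. -/
noncomputable def F {k : Type} [Field k] (h g : k[X]) : (RatFunc k)[X] :=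
  h.map (algebraMap k (RatFunc k)) * (X - C (algebraMap k[X] (RatFunc k) g))

theorem F_eq {k : Type} [Field k] (h g : k[X]) : F h g = Y713.SE.pencil (RatFunc k) h g := by
  unfold F Y713.SE.pencil
  congr 2

/-- Let `ℓ` be a prime number and `k` any field of characteristic different from `ℓ` containing the
`ℓ`-th roots of unity. Let `h` be a separable polynomial over `k` of degree at least two with all
roots in `k`, where `ℓ` does not divide `deg h + 1`, and let `g` be a polynomial over `k` of degree
prime to `ℓ` such that `g - c` is irreducible for every root `c` of `h`. Then for the Jacobian `J`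
of the curve `y ^ ℓ = h(x) (x - g(t))` over `k(t)` every class of `ℓ`-power order in
`H ^ 1 (k(t), J)` which is zero over the completions at all closed points of the affine line is
zero. -/
theorem result (k : Type) [Field k] (ℓ : ℕ) (ζ : k) (h g : k[X]) (hℓ : ℓ.Prime)
    (hk : (ℓ : k) ≠ 0) (hζ : IsPrimitiveRoot ζ ℓ) (hs : h.Splits) (hsep : h.Separable)
    (h2 : 2 ≤ h.natDegree) (hn : ¬ ℓ ∣ h.natDegree + 1) (hg : ¬ ℓ ∣ g.natDegree)
    (hirr : ∀ c, h.IsRoot c → Irreducible (g - C c)) :
    Y713.Jac.ShaPrimaryTrivial ℓ (F h g) k[X] ∧ Y713.Jac.ShaTateTrivial ℓ (F h g) k[X] := by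
  have key : Y713.Jac.ShaPrimaryTrivial ℓ (F h g) k[X] := by
    rw [F_eq]
    exact Y713.SE.pencil_primary (RatFunc k) hℓ hk hζ hs hsep h2 hn hg hirr
  exact ⟨key, key.tate⟩

end Pool.Agent.Results.MP_1bdb59_nt.SuperellipticPencil
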