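import Pool.Agent.Y713.SE.Twist

/-!
# Every superelliptic curve over `k(t)` with rational branch points has infinitely many twists
satisfying the Selmer group conjecture at the degree of the cover

The definitions of the Jacobian `J`, of its Galois cohomology over `K` and of the groups of locally
trivial classes are in `Pool.Agent.Y713.SE.Stm`.
-/

set_option autoImplicit false
set_option linter.all false

open Polynomial IsDedekindDomain

namespace Pool.Agent.Results.MP_1bdb59_nt.SuperellipticTwists

/-- Let `k` be the field of fractions of a Dedekind domain `O` with infinitely many maximal ideals,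
`ℓ` a prime number different from the characteristic of `k` such that `k` contains the `ℓ`-th roots
of unity, and `F` a separable polynomial over `k(t)` of degree prime to `ℓ` with all roots in
`k(t)`. Then there are monic irreducible polynomials `D` over `k` of arbitrarily large degree such
that for the Jacobian `J` of the twist `y ^ ℓ = D(t) F(x)` every class of `ℓ`-power order in
`H ^ 1 (k(t), J)` which is zero over the completions at all closed points of the affine line is
zero. -/
theorem result (O : Type) [CommRing O] [IsDedekindDomain O] [Infinite (HeightOneSpectrum O)]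
    (k : Type) [Field k] [Algebra O k] [IsFractionRing O k] (ℓ : ℕ) (hℓ : ℓ.Prime)
    (hk : (ℓ : k) ≠ 0) (ζ : k) (hζ : IsPrimitiveRoot ζ ℓ) (F : (RatFunc k)[X]) (hs : F.Splits)
    (hsep : F.Separable) (hn : ¬ ℓ ∣ F.natDegree) (N : ℕ) :
    ∃ D : k[X], D.Monic ∧ Irreducible D ∧ N ≤ D.natDegree ∧
      Y713.Jac.ShaPrimaryTrivial ℓ (C (algebraMap k[X] (RatFunc k) D) * F) k[X] ∧
      Y713.Jac.ShaTateTrivial ℓ (C (algebraMap k[X] (RatFunc k) D) * F) k[X] := by
  obtain ⟨D, h1, h2, h3, h4⟩ :=
    Y713.SE.twist_primary (RatFunc k) (O := O) inferInstance hℓ hk hζ hs hsep hn N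
  exact ⟨D, h1, h2, h3, h4, h4.tate⟩

end Pool.Agent.Results.MP_1bdb59_nt.SuperellipticTwists
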