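import Pool.Agent.Y160.T8.Main
import Pool.Agent.Y160.T8.Ex
import Pool.Agent.Y468.T8.Base
import Pool.Agent.Y457.T8.Ind
import Pool.Agent.Y925.T8.Smooth
import Pool.Agent.Y232.T8.Irr
import Pool.Agent.Y93.T8.Indq

/-!
# Jacobians of positive rank over `k(t)` with trivial `p`-primary Tate-Shafarevich group: an inductive
# class of equations `w ^ q = f(x, t)`

Let `p` be a prime, `q` a power of `p`, and `k` a field of characteristic not `p` which contains the
`q`-th roots of unity; for instance a number field, or any infinite finitely generated field (for finite
`k` the condition `IndepMod` below is never satisfied if `r ≥ 1`).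
`IsTowerData p q r v T` means that the polynomials `v_0, …, v_r` and `T` in `x` and `t` over `k` are
obtained from `G_0(t), …, G_r(t)` and `x` by finitely many operations; here the `G_j` are distinct
monic irreducible separable polynomials, the degree of `∏ G_j` is prime to `p`, and the condition `Redei`
holds (it concerns the `p`-th power residue symbols of the `G_j` modulo each other). The operations,
applied to all the `v_j` and to `T` at the same time, are

* the exchange of `x` and `t`;
* `x ↦ c x + b(t)`, `c ≠ 0`, `b` any polynomial: so every (tame) automorphism of the plane is allowed;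
* `t ↦ t ^ p`, if `f(x, 0)` is irreducible and separable of degree prime to `p`, where
`f = v_0 ⋯ v_r + T ^ q`, the `v_j(x, 0)` are separable of positive degree, and the condition `IndepMod`
holds: `c ∏ v_j(x, 0) ^ e_j` is a `p`-th power modulo `f(x, 0)`, for a constant `c`, only if all the `e_j`
are congruent modulo `p`.

Theorem. Let `r ≥ 1`, and let `f = v_0 ⋯ v_r + T ^ q` be monic in `x` of degree prime to `p`, and
separable over `K = k(t)` (which is automatic in characteristic zero), and let the `v_j` be monic in `x` of
positive degree. Let `J` be the Jacobian over `K` of the curve `w ^ q = f(x, t)`. Then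

* the Tate conjecture at `p` holds for the surface `w ^ q = f(x, t)`;
* the `p`-primary part of the Tate-Shafarevich group of `J` over `K` is zero;
* `J(K)` has a basis at `p` with `r (q - 1)` elements: they are independent over the integers and
generate `J(K)` modulo `p ^ n` for every `n`. So the rank of `J(K)` is `r (q - 1)` if `J(K)` is finitely
generated, and `T_p` of the Tate-Shafarevich group is zero.

The basis is given by the divisors `v_j = 0, w = T`, `0 ≤ j < r`, and their images under the powers of
the automorphism of order `q`; the degree of these divisors is arbitrarily large in general.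

Examples (`ex_mem` in `Pool.Agent.Y160.T8.Ex`): for polynomials `b`, `u`, `h` over `k` and constants
`e ≠ 0`, `c ≠ 0` let `y = c t ^ (p ^ d) + h(x)` and `X = x + u(y)`; then for ALL `d ≥ 0`

  `v_j = G_j(X)`, `T = e y + b(X)`, `f = ∏ G_j(x + u(y)) + (e y + b(x + u(y))) ^ q`

belongs to the class, if the conditions at `t = 0` (which do not depend on `d` and `c`) are satisfied. So
the rank is `r (q - 1)` for all the surfaces of these sequences, and their geometric genus is unbounded.
For `u = 0` and `h = 0` these are families of equations `w ^ q = ∏ G_j(x) + (c t ^ (p ^ d) + b(x)) ^ q`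
as in earlier results of the author; for `u`, `h` of positive degree the polynomials `v_j` really depend on
`t` and the degrees of the divisors `v_j = 0` are the degrees of `G_j(x + u(h(x)))` in general.

Method: on the plane curve `f = 0` the functions whose divisor is divisible by `p` are the products of
constants, powers of the `v_j` and `p`-th powers (the divisor of `v_j` on `f = 0` is divisible by `q`, as
`∏ v_j = -T ^ q` there and the `v_j` have no common zeros), and there is only the relation given by
`∏ v_j = -T ^ q` between the `v_j` modulo constants and `p`-th powers. For `x ^ q + ∏ G_j(t) = 0` this is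
the theorem of Rédei type (genus theory of the cyclic covering ramified in `r + 1` closed points and in
infinity), and the property is inherited by the cyclic covering of degree `p` which is ramified in the
one closed point `t = 0` (and in infinity) if the `v_j` are independent modulo this point.
-/

set_option autoImplicit false

open Polynomial

namespace Pool.Agent.Results.MP_1bdb59_nt.TowerCurvesPositiveRank

open Pool.Agent.Y160.SL Pool.Agent.TH115.GD

theorem result {p q s r : ℕ} (hp : p.Prime) (hq : q = p ^ (s + 1)) (hr : 0 < r)
    {k k' K F : Type} [Field k] [Field k'] [Algebra k k'] [Field K] [Algebra k[X] K]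
    [IsFractionRing k[X] K] [Field F] [Algebra k'[X] F] [IsFractionRing k'[X] F] [Algebra K F]
    (hT : IsTower k k' K F) {ζ : k} (hζ : IsPrimitiveRoot ζ q) {v : Fin (r + 1) → k[X][X]}
    {T : k[X][X]} (hv : IsTowerData p q r v T) (hmonic : (eqOf q v T).Monic)
    (hcop : p.Coprime (eqOf q v T).natDegree) (hvmonic : ∀ j, (v j).Monic ∧ 0 < (v j).natDegree)
    (hsep : ((eqOf q v T).map (algebraMap k[X] K)).Separable) :
    Concl p q r k k' F ((eqOf q v T).map (algebraMap k[X] K)) :=
  Pool.Agent.Y160.T8.main Pool.Agent.Y468.T8.st_base Pool.Agent.Y457.T8.st_ind
    Pool.Agent.Y93.T8.st_indq Pool.Agent.Y925.T8.st_smooth8 Pool.Agent.Y232.T8.st_irr8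
    Pool.Agent.Y232.T8.st_irrV hT hp hq hζ hr hv hmonic hcop hvmonic hsep

end Pool.Agent.Results.MP_1bdb59_nt.TowerCurvesPositiveRank
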